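import Mathlib

namespace Pool.Agent.Results.MP_ee21b2_co.IntegerRatio

open Finset

/-- Fractional choice of at most `r` elements is dominated by an integral one. -/
lemma top {I : Type*} [Fintype I] [DecidableEq I] (v c : I → ℝ) (r : ℕ)
    (hv0 : ∀ i, 0 ≤ v i) (hv1 : ∀ i, v i ≤ 1) (hc : ∀ i, 0 ≤ c i) (hr : ∑ i, v i ≤ r) :
    ∃ S : Finset I, S.card ≤ r ∧ ∑ i, v i * c i ≤ ∑ i ∈ S, c i := by
  by_cases hcard : Fintype.card I ≤ r
  · refine ⟨univ, by simpa using hcard, ?_⟩
    exact Finset.sum_le_sum fun i _ => by nlinarith [hv0 i, hv1 i, hc i]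
  · push Not at hcard
    obtain ⟨S, hS, hmax⟩ := Finset.exists_max_image (univ.powersetCard r : Finset (Finset I))
      (fun S => ∑ i ∈ S, c i) (Finset.powersetCard_nonempty.2 (by rw [Finset.card_univ]; omega))
    rw [Finset.mem_powersetCard] at hS
    refine ⟨S, hS.2.le, ?_⟩
    -- exchange
    have hex : ∀ i ∉ S, ∀ j ∈ S, c i ≤ c j := by
      intro i hi j hj
      have h1 : i ∉ S.erase j := fun h => hi (Finset.mem_of_mem_erase h)
      have h2 := hmax (insert i (S.erase j)) (by
        rw [Finset.mem_powersetCard]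
        refine ⟨Finset.subset_univ _, ?_⟩
        rw [Finset.card_insert_of_notMem h1, Finset.card_erase_of_mem hj, hS.2]
        have : 0 < S.card := Finset.card_pos.2 ⟨j, hj⟩
        omega)
      rw [Finset.sum_insert h1] at h2
      have h3 := Finset.add_sum_erase S c hj
      linarith
    have hsplit : ∑ i, v i * c i = ∑ i ∈ S, v i * c i + ∑ i ∈ Sᶜ, v i * c i :=
      (Finset.sum_add_sum_compl S _).symm
    have hsplit2 : ∑ i, v i = ∑ i ∈ S, v i + ∑ i ∈ Sᶜ, v i :=
      (Finset.sum_add_sum_compl S _).symm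
    rcases S.eq_empty_or_nonempty with hSe | hSne
    · have hr0 : r = 0 := by rw [← hS.2, hSe]; simp
      subst hr0
      have hv : ∀ i, v i = 0 := by
        intro i
        have h1 := Finset.single_le_sum (f := v) (s := univ) (fun i _ => hv0 i) (mem_univ i)
        have h2 := hv0 i
        simp only [Nat.cast_zero] at hr
        linarith
      rw [hSe]
      simp [hv]
    · obtain ⟨j0, hj0, hmin⟩ := Finset.exists_min_image S c hSne
      have h1 : ∑ i ∈ Sᶜ, v i * c i ≤ (∑ i ∈ Sᶜ, v i) * c j0 := by
        rw [Finset.sum_mul]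
        refine Finset.sum_le_sum fun i hi => ?_
        exact mul_le_mul_of_nonneg_left (hex i (Finset.mem_compl.1 hi) j0 hj0) (hv0 i)
      have h2 : (∑ i ∈ Sᶜ, v i) ≤ r - ∑ i ∈ S, v i := by linarith
      have h3 : (∑ i ∈ Sᶜ, v i) * c j0 ≤ (r - ∑ i ∈ S, v i) * c j0 :=
        mul_le_mul_of_nonneg_right h2 (hc j0)
      have h4 : ((r : ℝ) - ∑ i ∈ S, v i) * c j0 = ∑ i ∈ S, (1 - v i) * c j0 := by
        rw [← Finset.sum_mul, Finset.sum_sub_distrib]
        simp [hS.2]
      have h5 : ∑ i ∈ S, (1 - v i) * c j0 ≤ ∑ i ∈ S, (1 - v i) * c i :=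
        Finset.sum_le_sum fun i hi =>
          mul_le_mul_of_nonneg_left (hmin i hi) (by linarith [hv1 i])
      have h6 : ∑ i ∈ S, v i * c i + ∑ i ∈ S, (1 - v i) * c i = ∑ i ∈ S, c i := by
        rw [← Finset.sum_add_distrib]
        exact Finset.sum_congr rfl fun i _ => by ring
      linarith

variable {Y : Type*} [Fintype Y] [DecidableEq Y] {m : ℕ}

/-- Admissible weights. -/
def Adm (s : Y → ℕ) (w : Y → Y → Fin m → ℝ) : Prop :=
  (∀ y y' j, 0 ≤ w y y' j ∧ w y y' j ≤ 1) ∧ (∀ y j, w y y j = 0) ∧
    ∀ y, ∑ y', ∑ j, w y y' j ≤ s y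

/-- The quadratic form. -/
def F (w : Y → Y → Fin m → ℝ) : ℝ := ∑ j, ∑ y, ∑ y', w y y' j * w y' y j

lemma sym_split (h : Y → Y → ℝ) (hs : ∀ a b, h a b = h b a) (y0 : Y) (h0 : h y0 y0 = 0) :
    ∑ y, ∑ y', h y y' = 2 * ∑ y' ∈ univ.erase y0, h y0 y' +
      ∑ y ∈ univ.erase y0, ∑ y' ∈ univ.erase y0, h y y' := by
  have e : ∀ f : Y → ℝ, ∑ y, f y = f y0 + ∑ y ∈ univ.erase y0, f y := fun f =>
    (Finset.add_sum_erase univ f (mem_univ y0)).symm
  rw [e (fun y => ∑ y', h y y'), e (fun y' => h y0 y'), h0]
  have : ∀ y ∈ univ.erase y0, ∑ y', h y y' = h y0 y + ∑ y' ∈ univ.erase y0, h y y' := by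
    intro y _
    rw [e (fun y' => h y y'), hs y y0]
  rw [Finset.sum_congr rfl this, Finset.sum_add_distrib]
  ring

/-- Make one row integral. -/
lemma one_row {s : Y → ℕ} {w : Y → Y → Fin m → ℝ} (hw : Adm s w) (y0 : Y) :
    ∃ v : Y → Fin m → ℝ, Adm s (Function.update w y0 v) ∧ (∀ y' j, v y' j = 0 ∨ v y' j = 1) ∧
      F w ≤ F (Function.update w y0 v) := by
  obtain ⟨h1, h2, h3⟩ := hw
  set c : Y × Fin m → ℝ := fun p => if p.1 = y0 then 0 else w p.1 y0 p.2 with hc
  obtain ⟨S, hScard, hS⟩ := top (fun p : Y × Fin m => w y0 p.1 p.2) c (s y0)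
    (fun p => (h1 _ _ _).1) (fun p => (h1 _ _ _).2)
    (fun p => by
      rw [hc]
      by_cases hp : p.1 = y0
      · simp [hp]
      · simp only [hp, if_false]
        exact (h1 _ _ _).1)
    (by
      rw [Fintype.sum_prod_type]
      exact h3 y0)
  set v : Y → Fin m → ℝ := fun y' j => if (y', j) ∈ S ∧ y' ≠ y0 then 1 else 0 with hv
  have hv01 : ∀ y' j, v y' j = 0 ∨ v y' j = 1 := by
    intro y' j
    rw [hv]
    by_cases h : (y', j) ∈ S ∧ y' ≠ y0
    · right; simp [h]
    · left; simp only [h, if_false]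
  refine ⟨v, ⟨?_, ?_, ?_⟩, hv01, ?_⟩
  · intro y y' j
    by_cases hy : y = y0
    · subst hy
      rw [Function.update_self]
      rcases hv01 y' j with h | h <;> rw [h] <;> norm_num
    · rw [Function.update_of_ne hy]
      exact h1 y y' j
  · intro y j
    by_cases hy : y = y0
    · subst hy
      rw [Function.update_self, hv]
      simp
    · rw [Function.update_of_ne hy]
      exact h2 y j
  · intro y
    by_cases hy : y = y0
    · subst hy
      rw [Function.update_self, ← Fintype.sum_prod_type']
      calc ∑ p : Y × Fin m, v p.1 p.2 ≤ ∑ p : Y × Fin m, (if p ∈ S then (1 : ℝ) else 0) := by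
            refine Finset.sum_le_sum fun p _ => ?_
            rw [hv]
            by_cases hp : p ∈ S
            · simp only [hp, if_true]
              by_cases hq : p.1 ≠ y
              · simp [hq]
              · simp [hq]
            · simp [hp]
        _ = (S.card : ℝ) := by simp
        _ ≤ s y := by exact_mod_cast hScard
    · rw [Function.update_of_ne hy]
      exact h3 y
  · -- comparison of F
    have hpart : ∀ u : Y → Y → Fin m → ℝ, (∀ j, u y0 y0 j = 0) →
        F u = 2 * ∑ j, ∑ y' ∈ univ.erase y0, u y0 y' j * u y' y0 j +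
          ∑ j, ∑ y ∈ univ.erase y0, ∑ y' ∈ univ.erase y0, u y y' j * u y' y j := by
      intro u hu
      unfold F
      rw [Finset.mul_sum, ← Finset.sum_add_distrib]
      refine Finset.sum_congr rfl fun j _ => ?_
      exact sym_split (fun y y' => u y y' j * u y' y j) (fun a b => mul_comm _ _) y0
        (by simp [hu j])
    rw [hpart w (h2 y0), hpart (Function.update w y0 v) (by
      intro j
      rw [Function.update_self, hv]
      simp)]
    have hrest : ∑ j, ∑ y ∈ univ.erase y0, ∑ y' ∈ univ.erase y0,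
        Function.update w y0 v y y' j * Function.update w y0 v y' y j =
        ∑ j, ∑ y ∈ univ.erase y0, ∑ y' ∈ univ.erase y0, w y y' j * w y' y j := by
      refine Finset.sum_congr rfl fun j _ => Finset.sum_congr rfl fun y hy =>
        Finset.sum_congr rfl fun y' hy' => ?_
      rw [Function.update_of_ne (Finset.ne_of_mem_erase hy),
        Function.update_of_ne (Finset.ne_of_mem_erase hy')]
    rw [hrest]
    have hlin : ∀ u : Y → Fin m → ℝ, ∑ j, ∑ y' ∈ univ.erase y0, u y' j * w y' y0 j =
        ∑ p : Y × Fin m, u p.1 p.2 * c p := by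
      intro u
      rw [Fintype.sum_prod_type, Finset.sum_comm,
        ← Finset.add_sum_erase univ _ (mem_univ y0)]
      have : ∑ j, u (y0, j).1 (y0, j).2 * c (y0, j) = 0 := by
        apply Finset.sum_eq_zero
        intro j _
        simp [hc]
      rw [this, zero_add]
      refine Finset.sum_congr rfl fun y' hy' => Finset.sum_congr rfl fun j _ => ?_
      simp [hc, Finset.ne_of_mem_erase hy']
    have hA : ∑ j, ∑ y' ∈ univ.erase y0, w y0 y' j * w y' y0 j ≤
        ∑ j, ∑ y' ∈ univ.erase y0, Function.update w y0 v y0 y' j *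
          Function.update w y0 v y' y0 j := by
      have e2 : ∑ j, ∑ y' ∈ univ.erase y0, Function.update w y0 v y0 y' j *
          Function.update w y0 v y' y0 j = ∑ j, ∑ y' ∈ univ.erase y0, v y' j * w y' y0 j := by
        refine Finset.sum_congr rfl fun j _ => Finset.sum_congr rfl fun y' hy' => ?_
        rw [Function.update_self, Function.update_of_ne (Finset.ne_of_mem_erase hy')]
      rw [e2, hlin (w y0), hlin v]
      refine hS.trans ?_
      rw [← Finset.sum_filter_add_sum_filter_not univ (fun p => p ∈ S)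
        (fun p : Y × Fin m => v p.1 p.2 * c p)]
      have e3 : ∑ p ∈ univ.filter (fun p => p ∈ S), v p.1 p.2 * c p = ∑ p ∈ S, c p := by
        rw [Finset.filter_mem_eq_inter, Finset.univ_inter]
        refine Finset.sum_congr rfl fun p hp => ?_
        by_cases hq : p.1 = y0
        · simp [hc, hq]
        · simp [hv, hp, hq]
      have e4 : 0 ≤ ∑ p ∈ univ.filter (fun p => p ∉ S), v p.1 p.2 * c p := by
        apply Finset.sum_nonneg
        intro p hp
        rw [Finset.mem_filter] at hp
        simp [hv, hp.2]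
      rw [e3]
      linarith
    linarith

lemma all_rows {s : Y → ℕ} {w : Y → Y → Fin m → ℝ} (hw : Adm s w) (T : Finset Y) :
    ∃ w' : Y → Y → Fin m → ℝ, Adm s w' ∧ (∀ y ∈ T, ∀ y' j, w' y y' j = 0 ∨ w' y y' j = 1) ∧
      F w ≤ F w' := by
  induction T using Finset.induction_on with
  | empty => exact ⟨w, hw, by simp, le_refl _⟩
  | insert y0 T _ ih =>
    obtain ⟨w', h1, h2, h3⟩ := ih
    obtain ⟨v, hv1, hv2, hv3⟩ := one_row h1 y0
    refine ⟨Function.update w' y0 v, hv1, ?_, h3.trans hv3⟩
    intro y hy y' j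
    by_cases hyy : y = y0
    · subst hyy
      rw [Function.update_self]
      exact hv2 y' j
    · rw [Function.update_of_ne hyy]
      exact h2 y ((Finset.mem_insert.1 hy).resolve_left hyy) y' j

/-- Core bound. -/
lemma core {s : Y → ℕ} {w : Y → Y → Fin m → ℝ} (hw : Adm s w) (hodd : Odd (∑ y, s y)) :
    F w ≤ ((∑ y, s y : ℕ) : ℝ) - 1 := by
  obtain ⟨w', h1, h2, h3⟩ := all_rows hw univ
  refine h3.trans ?_
  set E : Finset (Y × Y × Fin m) :=
    univ.filter (fun p => w' p.1 p.2.1 p.2.2 = 1 ∧ w' p.2.1 p.1 p.2.2 = 1) with hE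
  have hF : F w' = (E.card : ℝ) := by
    unfold F
    rw [Finset.sum_comm' (t' := univ) (s' := fun _ => univ) (by simp)]
    rw [hE, Finset.card_filter, Nat.cast_sum, Fintype.sum_prod_type]
    refine Finset.sum_congr rfl fun y _ => ?_
    rw [Finset.sum_comm, Fintype.sum_prod_type]
    refine Finset.sum_congr rfl fun y' _ => Finset.sum_congr rfl fun j _ => ?_
    rcases h2 y (mem_univ y) y' j with ha | ha <;> rcases h2 y' (mem_univ y') y j with hb | hb <;>
      simp [ha, hb]
  have heven : Even E.card := by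
    have hsum : ∑ p ∈ E, (1 : ZMod 2) = 0 := by
      refine Finset.sum_involution (fun p _ => (p.2.1, p.1, p.2.2)) ?_ ?_ ?_ ?_
      · intro p _
        decide
      · intro p hp _ heq
        have h4 : p.2.1 = p.1 := congrArg Prod.fst heq
        rw [hE, Finset.mem_filter] at hp
        have h5 := hp.2.1
        rw [h4, h1.2.1] at h5
        norm_num at h5
      · intro p hp
        rw [hE, Finset.mem_filter] at hp ⊢
        exact ⟨mem_univ _, hp.2.2, hp.2.1⟩
      · intro p _
        rfl
    rw [Finset.sum_const, nsmul_eq_mul, mul_one] at hsum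
    exact (ZMod.natCast_eq_zero_iff_even).1 hsum
  have hle : E.card ≤ ∑ y, s y := by
    have h4 : (E.card : ℝ) ≤ ∑ y, ∑ y', ∑ j, w' y y' j := by
      rw [hE, Finset.card_filter, Nat.cast_sum, Fintype.sum_prod_type]
      refine Finset.sum_le_sum fun y _ => ?_
      rw [Fintype.sum_prod_type]
      refine Finset.sum_le_sum fun y' _ => Finset.sum_le_sum fun j _ => ?_
      rcases h2 y (mem_univ y) y' j with ha | ha
      · simp [ha]
      · simp only [ha, true_and]
        split_ifs <;> norm_num
    have h5 : ∑ y, ∑ y', ∑ j, w' y y' j ≤ ∑ y, (s y : ℝ) :=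
      Finset.sum_le_sum fun y _ => h1.2.2 y
    have h6 : (E.card : ℝ) ≤ ((∑ y, s y : ℕ) : ℝ) := by
      rw [Nat.cast_sum]; linarith
    exact_mod_cast h6
  have hlt : E.card + 1 ≤ ∑ y, s y := by
    obtain ⟨a, ha⟩ := hodd
    obtain ⟨b, hb⟩ := heven
    omega
  rw [hF]
  have : ((E.card + 1 : ℕ) : ℝ) ≤ ((∑ y, s y : ℕ) : ℝ) := by exact_mod_cast hlt
  push_cast at this ⊢
  linarith

/-- Largest row sum. -/
noncomputable def rowNorm {n k : ℕ} (M : Matrix (Fin n) (Fin k) ℝ) : ℝ := ⨆ x, ∑ y, M x y

/-- Largest column sum. -/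
noncomputable def colNorm {n k : ℕ} (M : Matrix (Fin n) (Fin k) ℝ) : ℝ := ⨆ y, ∑ x, M x y

/-- The double sum of Q1 over the positions `p 0, …, p (t - 1)`. -/
noncomputable def crossSum {n k t : ℕ} (M : Matrix (Fin n) (Fin k) ℝ)
    (p : Fin t → Fin n × Fin k) : ℝ :=
  ∑ i, ∑ j, M (p i).1 (p j).2 * M (p j).1 (p i).2

lemma row_le {n k : ℕ} (M : Matrix (Fin n) (Fin k) ℝ) (x : Fin n) :
    ∑ y, M x y ≤ rowNorm M :=
  le_ciSup (f := fun x => ∑ y, M x y) (Set.finite_range _).bddAbove x

lemma col_le {n k : ℕ} (M : Matrix (Fin n) (Fin k) ℝ) (y : Fin k) :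
    ∑ x, M x y ≤ colNorm M :=
  le_ciSup (f := fun y => ∑ x, M x y) (Set.finite_range _).bddAbove y

lemma main {n k : ℕ} (M : Matrix (Fin n) (Fin k) ℝ) (hM : ∀ x y, 0 ≤ M x y) {t : ℕ}
    (ht : Odd t) (p : Fin t → Fin n × Fin k) (hp : Function.Injective p)
    (hz : ∀ i, M (p i).1 (p i).2 = 0) (m : ℕ) (hm : colNorm M ≤ m * rowNorm M) :
    crossSum M p ≤ ((t : ℝ) - 1) * (m * rowNorm M ^ 2) := by
  set R := rowNorm M with hR
  have ht1 : 1 ≤ t := ht.pos
  have ht1' : (1 : ℝ) ≤ t := by exact_mod_cast ht1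
  by_cases hzero : ∀ x y, M x y = 0
  · have : crossSum M p = 0 := by
      unfold crossSum
      simp [hzero]
    rw [this]
    have : 0 ≤ (t : ℝ) - 1 := by linarith
    positivity
  · push Not at hzero
    obtain ⟨x0, y0, hxy⟩ := hzero
    have hpos : 0 < M x0 y0 := lt_of_le_of_ne (hM x0 y0) (Ne.symm hxy)
    have hRpos : 0 < R := by
      have h1 := row_le M x0
      have h2 := Finset.single_le_sum (f := fun y => M x0 y) (s := univ)
        (fun y _ => hM x0 y) (mem_univ y0)
      linarith
    have hCpos : 0 < colNorm M := by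
      have h1 := col_le M y0
      have h2 := Finset.single_le_sum (f := fun x => M x y0) (s := univ)
        (fun x _ => hM x y0) (mem_univ x0)
      linarith
    have hmR : 0 < (m : ℝ) * R := lt_of_lt_of_le hCpos hm
    have hmpos : 0 < (m : ℝ) := by
      rcases Nat.eq_zero_or_pos m with h | h
      · subst h
        simp at hmR
      · exact_mod_cast h
    set Zs : Finset (Fin n × Fin k) := univ.image p with hZs
    have hZcard : Zs.card = t := by
      rw [hZs, Finset.card_image_of_injective _ hp, Finset.card_univ, Fintype.card_fin]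
    set fib : Fin k → Finset (Fin n × Fin k) := fun y => Zs.filter (fun z => z.2 = y) with hfib
    set a : Fin k → Fin k → ℝ := fun y y' => ∑ z ∈ fib y, M z.1 y' with ha
    have hfib2 : ∀ y, ∀ z ∈ fib y, z.2 = y := fun y z hz => (Finset.mem_filter.1 hz).2
    have hsum : crossSum M p = ∑ y, ∑ y', a y y' * a y' y := by
      have e1 : crossSum M p = ∑ z ∈ Zs, ∑ u ∈ Zs, M z.1 u.2 * M u.1 z.2 := by
        unfold crossSum
        rw [hZs, Finset.sum_image (fun x _ y _ h => hp h)]
        refine Finset.sum_congr rfl fun i _ => ?_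
        rw [Finset.sum_image (fun x _ y _ h => hp h)]
      rw [e1, ← Finset.sum_fiberwise Zs (fun z => z.2)]
      refine Finset.sum_congr rfl fun y _ => ?_
      have e2 : ∀ z ∈ fib y, ∑ u ∈ Zs, M z.1 u.2 * M u.1 z.2 =
          ∑ y', M z.1 y' * a y' y := by
        intro z hz
        rw [← Finset.sum_fiberwise Zs (fun z => z.2)]
        refine Finset.sum_congr rfl fun y' _ => ?_
        rw [ha, Finset.mul_sum]
        refine Finset.sum_congr rfl fun u hu => ?_
        rw [hfib2 y z hz, (Finset.mem_filter.1 hu).2]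
      rw [Finset.sum_congr rfl e2, Finset.sum_comm]
      refine Finset.sum_congr rfl fun y' _ => ?_
      rw [← Finset.sum_mul]
    have ha0 : ∀ y y', 0 ≤ a y y' := fun y y' => Finset.sum_nonneg fun z _ => hM _ _
    have haC : ∀ y y', a y y' ≤ m * R := by
      intro y y'
      have e1 : a y y' = ∑ x ∈ (fib y).image Prod.fst, M x y' := by
        rw [Finset.sum_image]
        intro z hz u hu h
        exact Prod.ext h ((hfib2 y z hz).trans (hfib2 y u hu).symm)
      rw [e1]
      refine le_trans ?_ ((col_le M y').trans hm)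
      exact Finset.sum_le_univ_sum_of_nonneg fun x => hM x y'
    set w : Fin k → Fin k → Fin m → ℝ := fun y y' _ => a y y' / (m * R) with hw
    have hAdm : Adm (fun y => (fib y).card) w := by
      refine ⟨?_, ?_, ?_⟩
      · intro y y' j
        exact ⟨div_nonneg (ha0 y y') hmR.le, (div_le_one hmR).2 (haC y y')⟩
      · intro y j
        have : a y y = 0 := by
          apply Finset.sum_eq_zero
          intro z hzz
          have h1 := (Finset.mem_filter.1 hzz).1
          rw [hZs, Finset.mem_image] at h1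
          obtain ⟨i, _, rfl⟩ := h1
          rw [← hfib2 y _ hzz]
          exact hz i
        simp [hw, this]
      · intro y
        have e1 : ∑ y', ∑ j : Fin m, w y y' j = (∑ y', a y y') / R := by
          rw [Finset.sum_div]
          refine Finset.sum_congr rfl fun y' _ => ?_
          rw [hw]
          simp only [Finset.sum_const, Finset.card_univ, Fintype.card_fin, nsmul_eq_mul]
          field_simp
        rw [e1, div_le_iff₀ hRpos]
        have e2 : ∑ y', a y y' = ∑ z ∈ fib y, ∑ y', M z.1 y' := by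
          rw [ha]
          exact Finset.sum_comm
        rw [e2]
        calc ∑ z ∈ fib y, ∑ y', M z.1 y' ≤ ∑ z ∈ fib y, R :=
              Finset.sum_le_sum fun z _ => row_le M z.1
          _ = ((fib y).card : ℝ) * R := by simp
    have hscard : ∑ y, (fib y).card = t := by
      rw [← hZcard]
      exact (Finset.card_eq_sum_card_fiberwise (fun z _ => mem_univ _)).symm
    have hcore := core hAdm (by rw [hscard]; exact ht)
    have hF : F w = crossSum M p / (m * R ^ 2) := by
      unfold F
      rw [hsum]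
      have e1 : ∀ j : Fin m, ∑ y, ∑ y', w y y' j * w y' y j =
          (∑ y, ∑ y', a y y' * a y' y) / (m * R) ^ 2 := by
        intro j
        rw [Finset.sum_div]
        refine Finset.sum_congr rfl fun y _ => ?_
        rw [Finset.sum_div]
        refine Finset.sum_congr rfl fun y' _ => ?_
        rw [hw]
        simp only
        rw [div_mul_div_comm, sq]
      rw [Finset.sum_congr rfl (fun j _ => e1 j)]
      simp only [Finset.sum_const, Finset.card_univ, Fintype.card_fin, nsmul_eq_mul]
      field_simp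
    rw [hF, hscard, div_le_iff₀ (by positivity)] at hcore
    exact hcore

/-- **Main result.** Let `M ≥ 0` be real, `t` odd and let `p` list `t` distinct positions at
which `M` vanishes. If the larger of the two norms is at most `m` times the smaller one
(`m` a natural number), then the double sum is at most `(t - 1) m (smaller norm)²`; for
norms with ratio exactly `m` this is the conjectured bound `(t - 1) ‖M‖_∞ ‖M‖_1`. -/
theorem result : ∀ (n k : ℕ) (M : Matrix (Fin n) (Fin k) ℝ), (∀ x y, 0 ≤ M x y) →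
    ∀ (t : ℕ), Odd t → ∀ p : Fin t → Fin n × Fin k, Function.Injective p →
      (∀ i, M (p i).1 (p i).2 = 0) → ∀ m : ℕ,
        (colNorm M ≤ m * rowNorm M → crossSum M p ≤ ((t : ℝ) - 1) * (m * rowNorm M ^ 2)) ∧
        (rowNorm M ≤ m * colNorm M → crossSum M p ≤ ((t : ℝ) - 1) * (m * colNorm M ^ 2)) ∧
        (colNorm M = m * rowNorm M ∨ rowNorm M = m * colNorm M →
          crossSum M p ≤ ((t : ℝ) - 1) * rowNorm M * colNorm M) := by
  intro n k M hM t ht p hp hz m
  have hA := main M hM ht p hp hz m
  have hB : rowNorm M ≤ m * colNorm M →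
      crossSum M p ≤ ((t : ℝ) - 1) * (m * colNorm M ^ 2) := by
    intro h
    have h1 := main M.transpose (fun x y => hM y x) ht (fun i => ((p i).2, (p i).1))
      (by
        intro i j hij
        apply hp
        have h2 := congrArg Prod.fst hij
        have h3 := congrArg Prod.snd hij
        exact Prod.ext h3 h2) (fun i => hz i) m h
    have h2 : crossSum M.transpose (fun i => ((p i).2, (p i).1)) = crossSum M p := by
      unfold crossSum
      refine Finset.sum_congr rfl fun i _ => Finset.sum_congr rfl fun j _ => ?_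
      simp only [Matrix.transpose_apply]
      ring
    rw [h2] at h1
    exact h1
  refine ⟨hA, hB, ?_⟩
  rintro (h | h)
  · have := hA h.le
    calc crossSum M p ≤ ((t : ℝ) - 1) * (m * rowNorm M ^ 2) := this
      _ = ((t : ℝ) - 1) * rowNorm M * colNorm M := by rw [h]; ring
  · have := hB h.le
    calc crossSum M p ≤ ((t : ℝ) - 1) * (m * colNorm M ^ 2) := this
      _ = ((t : ℝ) - 1) * rowNorm M * colNorm M := by rw [h]; ring

end Pool.Agent.Results.MP_ee21b2_co.IntegerRatio
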